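import Pool.Agent.W206.ND.Stm

set_option autoImplicit false

/-!
ND-TA: from the bound along multiples of `L` to all exponential sums.
-/

namespace Pool.Agent.W705.ND.TA

open Filter Topology Pool.Agent.W206.ND

theorem av_of_bound (f : ℕ → ℂ)
    (h : ∀ ε : ℝ, 0 < ε → ∀ᶠ N : ℕ in atTop, ‖f N‖ ≤ ε * N) :
    Tendsto (fun N : ℕ => f N / (N : ℂ)) atTop (𝓝 0) := by
  rw [Metric.tendsto_nhds]
  intro ε hε
  filter_upwards [h (ε / 2) (half_pos hε), eventually_gt_atTop 0] with N hN hN0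
  have hN1 : (0 : ℝ) < N := Nat.cast_pos.2 hN0
  rw [dist_zero_right, norm_div, Complex.norm_natCast, div_lt_iff₀ hN1]
  have : 0 < ε / 2 * N := mul_pos (half_pos hε) hN1
  linarith

theorem class_sum (f : ℕ → ℂ) (L c N : ℕ) (hc : c < L) :
    ∑ i ∈ (Finset.range N).filter (fun i => i % L = c), f i =
      ∑ n ∈ (Finset.range (N - c)).filter (fun n => n % L = 0), f (n + c) := by
  refine Finset.sum_bij' (fun i _ => i - c) (fun n _ => n + c) ?_ ?_ ?_ ?_ ?_
  · intro i hi
    rw [Finset.mem_filter, Finset.mem_range] at hi ⊢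
    obtain ⟨h1, h2⟩ := hi
    have h3 := Nat.mod_add_div i L
    rw [h2] at h3
    refine ⟨by omega, ?_⟩
    have h4 : i - c = L * (i / L) := by omega
    rw [h4, Nat.mul_mod_right]
  · intro n hn
    rw [Finset.mem_filter, Finset.mem_range] at hn ⊢
    obtain ⟨h1, h2⟩ := hn
    refine ⟨by omega, ?_⟩
    rw [Nat.add_mod, h2, zero_add, Nat.mod_mod, Nat.mod_eq_of_lt hc]
  · intro i hi
    rw [Finset.mem_filter, Finset.mem_range] at hi
    have h3 := Nat.mod_le i L
    have : c ≤ i := by omega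
    show i - c + c = i
    omega
  · intro n _
    show n + c - c = n
    omega
  · intro i hi
    rw [Finset.mem_filter, Finset.mem_range] at hi
    have h3 := Nat.mod_le i L
    have : i - c + c = i := by omega
    show f i = f (i - c + c)
    rw [this]

theorem main : S_TA := by
  intro hCR hSH
  -- the case `b ∤ t`
  have key : ∀ (b : ℕ) (x : ℝ), 2 ≤ b → (∀ r : ℚ, UZ b (x + r)) → ∀ t : ℤ, ¬ (b : ℤ) ∣ t →
      AV b x t := by
    intro b x hb hx t ht
    obtain ⟨C, L₀, hC⟩ := hCR b t hb ht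
    apply av_of_bound
    intro ε hε
    have hb0 : (0 : ℝ) < b := by
      have : 0 < b := by omega
      exact_mod_cast this
    have hb1 : (b : ℝ)⁻¹ < 1 := by
      apply inv_lt_one_of_one_lt₀
      have : 1 < b := by omega
      exact_mod_cast this
    have hlim : Tendsto (fun n : ℕ => |C| * ((n : ℝ) * (b : ℝ)⁻¹ ^ n)) atTop (𝓝 (|C| * 0)) :=
      (tendsto_self_mul_const_pow_of_lt_one (inv_nonneg.2 hb0.le) hb1).const_mul _
    rw [mul_zero] at hlim
    have hev : ∀ᶠ n : ℕ in atTop, |C| * ((n : ℝ) * (b : ℝ)⁻¹ ^ n) < ε / 2 :=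
      hlim.eventually (gt_mem_nhds (half_pos hε))
    obtain ⟨L, ⟨hL1, hL2⟩, hL3⟩ :=
      ((hev.and (eventually_ge_atTop L₀)).and (eventually_ge_atTop 1)).exists
    have hLpos : (0 : ℝ) < L := by
      have : 0 < L := by omega
      exact_mod_cast this
    have hε' : 0 < ε / (2 * L) := div_pos hε (by positivity)
    have hall : ∀ᶠ N : ℕ in atTop, ∀ c ∈ Finset.range L,
        ‖∑ n ∈ (Finset.range (N - c)).filter (fun n => n % L = 0),
          ee (t * (x * (b : ℝ) ^ c) * (b : ℝ) ^ n)‖ ≤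
          (C / ((b : ℝ) ^ L) + ε / (2 * L)) * ((N - c : ℕ) : ℝ) := by
      rw [Filter.eventually_all_finset]
      intro c _
      exact (tendsto_sub_atTop_nat c).eventually
        (hC L hL2 (x * (b : ℝ) ^ c) (hSH b c x hb hx) _ hε')
    filter_upwards [hall] with N hN
    have hsplit : ∑ i ∈ Finset.range N, ee (t * x * (b : ℝ) ^ i) =
        ∑ c ∈ Finset.range L, ∑ i ∈ (Finset.range N).filter (fun i => i % L = c),
          ee (t * x * (b : ℝ) ^ i) := by
      rw [Finset.sum_fiberwise_of_maps_to]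
      intro i _
      exact Finset.mem_range.2 (Nat.mod_lt _ (by omega))
    rw [hsplit]
    have hterm : ∀ c ∈ Finset.range L,
        ‖∑ i ∈ (Finset.range N).filter (fun i => i % L = c), ee (t * x * (b : ℝ) ^ i)‖ ≤
          (|C| / ((b : ℝ) ^ L) + ε / (2 * L)) * (N : ℝ) := by
      intro c hc
      rw [class_sum (fun i => ee (t * x * (b : ℝ) ^ i)) L c N (Finset.mem_range.1 hc)]
      have h1 := hN c hc
      have h2 : ∀ n : ℕ, (t : ℝ) * x * (b : ℝ) ^ (n + c) =
          t * (x * (b : ℝ) ^ c) * (b : ℝ) ^ n := by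
        intro n
        rw [pow_add]
        ring
      simp only [h2]
      refine h1.trans ?_
      have h3 : C / ((b : ℝ) ^ L) ≤ |C| / ((b : ℝ) ^ L) :=
        div_le_div_of_nonneg_right (le_abs_self C) (by positivity)
      have h4 : ((N - c : ℕ) : ℝ) ≤ (N : ℝ) := by exact_mod_cast Nat.sub_le N c
      have h5 : (0 : ℝ) ≤ ((N - c : ℕ) : ℝ) := Nat.cast_nonneg _
      have h6 : (0 : ℝ) ≤ |C| / ((b : ℝ) ^ L) + ε / (2 * L) := by positivity
      calc (C / ((b : ℝ) ^ L) + ε / (2 * L)) * ((N - c : ℕ) : ℝ)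
          ≤ (|C| / ((b : ℝ) ^ L) + ε / (2 * L)) * ((N - c : ℕ) : ℝ) :=
            mul_le_mul_of_nonneg_right (by linarith) h5
        _ ≤ (|C| / ((b : ℝ) ^ L) + ε / (2 * L)) * (N : ℝ) :=
            mul_le_mul_of_nonneg_left h4 h6
    refine (norm_sum_le_of_le _ hterm).trans ?_
    rw [Finset.sum_const, Finset.card_range, nsmul_eq_mul]
    have h7 : (L : ℝ) * (|C| / ((b : ℝ) ^ L)) = |C| * ((L : ℝ) * (b : ℝ)⁻¹ ^ L) := by
      rw [inv_pow, div_eq_mul_inv]
      ring
    have h8 : (L : ℝ) * (ε / (2 * L)) = ε / 2 := by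
      field_simp
    have h9 : (0 : ℝ) ≤ N := Nat.cast_nonneg _
    calc (L : ℝ) * ((|C| / ((b : ℝ) ^ L) + ε / (2 * L)) * (N : ℝ))
        = ((L : ℝ) * (|C| / ((b : ℝ) ^ L)) + (L : ℝ) * (ε / (2 * L))) * N := by ring
      _ ≤ ε * N := by
          rw [h7, h8]
          exact mul_le_mul_of_nonneg_right (by linarith) h9
  intro b x hb hx t ht
  have hfin : FiniteMultiplicity (b : ℤ) t := by
    rw [Int.finiteMultiplicity_iff]
    refine ⟨?_, ht⟩
    rw [Int.natAbs_natCast]
    omega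
  obtain ⟨t₀, h1, h2⟩ := hfin.exists_eq_pow_mul_and_not_dvd
  have h3 := key b (x * (b : ℝ) ^ (multiplicity (b : ℤ) t)) hb (hSH b _ x hb hx) t₀ h2
  unfold AV at h3 ⊢
  have h4 : ∀ i : ℕ, (t : ℝ) * x * (b : ℝ) ^ i =
      t₀ * (x * (b : ℝ) ^ (multiplicity (b : ℤ) t)) * (b : ℝ) ^ i := by
    intro i
    have h5 : (t : ℝ) = (b : ℝ) ^ (multiplicity (b : ℤ) t) * t₀ := by
      have := congrArg (fun z : ℤ => (z : ℝ)) h1
      push_cast at this
      exact this
    rw [h5]
    ring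
  simp only [h4]
  exact h3

end Pool.Agent.W705.ND.TA
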